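import Pool.Agent.W999.ES.Defs
import Pool.Agent.W960.Re
import Pool.Agent.W368.SpxGram
import Pool.Agent.W436.SpxSmall

set_option autoImplicit false

/-! Project ES (helper999): the independence test is correct. -/

namespace Pool.Agent.W12.ES

open Pool.Agent.NPC Pool.Agent.W960 Pool.Agent.W999.ES

theorem hyp : Pool.Agent.W960.Hyp where
  hP := fun k S hS h y hy j hj => Pool.Agent.W368.projL_spec k S hS h y hy j hj
  hSel := fun k R hR => Pool.Agent.W368.sel_spec k R hR
  hSm := fun R k i hR hi x hx0 hx hxi => Pool.Agent.W436.small_sol R k i hR hi x hx0 hx hxi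

theorem getD_map_get (S : List (List ℕ)) (f : List ℕ → ℤ) (j : Fin S.length) :
    (S.map f).getD j 0 = f (S.get j) := by
  rw [List.getD_eq_getElem?_getD, List.getElem?_map, List.getElem?_eq_getElem j.2]
  rfl

theorem linIndep_iff (Δ S : List (List ℕ)) (hS : S.Nodup) :
    LinearIndepOn ℚ (col Δ) {σ | σ ∈ S} ↔
      ∀ g : Fin S.length → ℚ,
        (∀ τ ∈ ridges Δ, ∑ i, g i * (coef τ (S.get i) : ℚ) = 0) → ∀ i, g i = 0 := by
  have h1 : LinearIndepOn ℚ (col Δ) {σ | σ ∈ S} ↔
      LinearIndependent ℚ (fun i : Fin S.length => col Δ (S.get i)) := by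
    have h2 := linearIndependent_equiv (hS.getEquiv S) (R := ℚ)
      (f := fun x : {σ // σ ∈ S} => col Δ x.1)
    unfold LinearIndepOn
    exact h2.symm
  rw [h1, Fintype.linearIndependent_iff]
  refine forall_congr' fun g => ?_
  have h3 : (∑ i, g i • col Δ (S.get i) = 0) ↔
      ∀ τ ∈ ridges Δ, ∑ i, g i * (coef τ (S.get i) : ℚ) = 0 := by
    constructor
    · intro h τ hτ
      have := congrFun h ⟨τ, hτ⟩
      rw [Finset.sum_apply] at this
      exact this
    · intro h
      funext τ
      rw [Finset.sum_apply]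
      exact h τ.1 τ.2
  rw [h3]

theorem rows_len (Δ S : List (List ℕ)) (j : ℕ) :
    ∀ a ∈ rowsOf Δ S, a.length = (eL S.length j).length := by
  intro a ha
  unfold rowsOf at ha
  obtain ⟨τ, -, rfl⟩ := List.mem_map.1 ha
  simp [eL]

theorem ind : S_IND := by
  intro Δ hΔ S hsub
  have hnd : S.Nodup := by
    refine hsub.nodup ?_
    unfold tops
    exact hΔ.nodup.filter _
  rw [linIndep_iff Δ S hnd]
  constructor
  · intro hind g hg
    by_contra hcon
    push Not at hcon
    obtain ⟨i, hi⟩ := hcon
    obtain ⟨c, hc⟩ : ∃ c : ℝ, 0 < c * (g i : ℝ) := by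
      refine ⟨(g i : ℝ), ?_⟩
      have : (g i : ℝ) ≠ 0 := by exact_mod_cast hi
      exact mul_self_pos.2 this
    have h2 : (HF (rowsOf Δ S) [] (eL S.length i)).isSome = true := by
      rw [HF_iff hyp (rows_len Δ S i) (by simp)]
      refine ⟨List.ofFn fun j => c * (g j : ℝ), by simp [eL], ?_, by simp, ?_⟩
      · intro a ha
        unfold rowsOf at ha
        obtain ⟨τ, hτ, rfl⟩ := List.mem_map.1 ha
        rw [dZ_fin (k := S.length) (by simp)]
        have e1 : ∀ j : Fin S.length, (((S.map fun σ => coef τ σ).getD j 0 : ℤ) : ℝ) *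
            (List.ofFn fun j => c * (g j : ℝ)).getD j 0 =
            c * (((g j * (coef τ (S.get j) : ℚ) : ℚ)) : ℝ) := by
          intro j
          rw [getD_map_get, List.getD_eq_getElem?_getD, List.getElem?_ofFn]
          simp only [j.2, dif_pos, Option.getD_some]
          push_cast
          ring
        simp_rw [e1]
        rw [← Finset.mul_sum, ← Rat.cast_sum, hg τ hτ]
        simp
      · rw [dZ_eL i.2, List.getD_eq_getElem?_getD, List.getElem?_ofFn]
        simp only [i.2, dif_pos, Option.getD_some]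
        exact hc
    unfold indepL at hind
    rw [List.all_eq_true] at hind
    have := hind i (List.mem_range.2 i.2)
    rw [h2] at this
    simp at this
  · intro h
    unfold indepL
    rw [List.all_eq_true]
    intro j hj
    rw [List.mem_range] at hj
    by_contra hcon
    have h2 : (HF (rowsOf Δ S) [] (eL S.length j)).isSome = true := by
      cases h3 : (HF (rowsOf Δ S) [] (eL S.length j)).isSome
      · rw [h3] at hcon; simp at hcon
      · rfl
    obtain ⟨x, hx⟩ := Option.isSome_iff_exists.1 h2
    obtain ⟨hl, hE, -, hpos⟩ := HF_sound (rows_len Δ S j) (by simp) hx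
    have h4 := h (fun i => ((x.getD i 0 : ℤ) : ℚ)) (by
      intro τ hτ
      have h5 := hE (S.map fun σ => coef τ σ) (by
        unfold rowsOf
        exact List.mem_map.2 ⟨τ, hτ, rfl⟩)
      rw [← dZ_int, dZ_fin (k := S.length) (by simp)] at h5
      have h6 : ((∑ j : Fin S.length, (((S.map fun σ => coef τ σ).getD j 0 : ℤ) : ℤ) *
          x.getD j 0 : ℤ) : ℚ) = 0 := by
        rw [show (∑ j : Fin S.length, (((S.map fun σ => coef τ σ).getD j 0 : ℤ) : ℤ) *
          x.getD j 0 : ℤ) = 0 from h5]
        simp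
      rw [← h6]
      push_cast
      refine Finset.sum_congr rfl fun i _ => ?_
      rw [getD_map_get]
      ring)
    have h7 := h4 ⟨j, hj⟩
    rw [← dZ_int, dZ_eL hj] at hpos
    have h8 : x.getD j 0 = 0 := by exact_mod_cast h7
    omega

end Pool.Agent.W12.ES
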